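import Pool.Agent.Helper82.CF.Cir

/-!
The bound of `Cir` has the right exponent: a product of `k` Sidon sets with `p` elements is
computed by at most `2 k p + 1` unions and sumsets from singletons, has `p ^ k` elements and
represents no number more than `2 ^ k` times.
-/

namespace Pool.Agent.Helper47.CF

open Finset Pool.Agent.Helper82.CF

open scoped Pointwise

/-! ### Composition of circuits -/

/-- `T` is computed by a circuit with `s` gates -/
def Comp (s : ℕ) (T : Finset ℤ) : Prop :=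
  ∃ S : ℕ → Finset ℤ, ∃ i, IsCircuit s S ∧ i < s ∧ S i = T

theorem comp_single (t : ℤ) : Comp 1 {t} :=
  ⟨fun _ => {t}, 0, fun _ _ => Or.inl ⟨t, rfl⟩, by norm_num, rfl⟩

theorem comp_join {s s' : ℕ} {T T' U : Finset ℤ} (h : Comp s T) (h' : Comp s' T')
    (hU : U = T ∪ T' ∨ U = T + T') : Comp (s + s' + 1) U := by
  obtain ⟨S, i, hS, hi, hT⟩ := h
  obtain ⟨S', i', hS', hi', hT'⟩ := h'
  have e1 : ∀ j, j < s →
      (if j < s then S j else if j < s + s' then S' (j - s) else U) = S j := by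
    intro j hj
    rw [if_pos hj]
  have e2 : ∀ j, j < s' →
      (if s + j < s then S (s + j) else if s + j < s + s' then S' (s + j - s) else U) = S' j := by
    intro j hj
    rw [if_neg (by omega), if_pos (by omega), Nat.add_sub_cancel_left]
  refine ⟨fun j => if j < s then S j else if j < s + s' then S' (j - s) else U, s + s', ?_,
    by omega, ?_⟩
  · intro j hj
    by_cases h1 : j < s
    · simp only
      rw [e1 j h1]
      rcases hS j h1 with h2 | ⟨a, ha, b, hb, h2⟩ | ⟨a, ha, b, hb, h2⟩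
      · exact Or.inl h2
      · refine Or.inr (Or.inl ⟨a, ha, b, hb, ?_⟩)
        rw [e1 a (ha.trans h1), e1 b (hb.trans h1), h2]
      · refine Or.inr (Or.inr ⟨a, ha, b, hb, ?_⟩)
        rw [e1 a (ha.trans h1), e1 b (hb.trans h1), h2]
    · by_cases h2 : j < s + s'
      · obtain ⟨m, rfl⟩ : ∃ m, j = s + m := ⟨j - s, by omega⟩
        have hm : m < s' := by omega
        simp only
        rw [e2 m hm]
        rcases hS' m hm with h3 | ⟨a, ha, b, hb, h3⟩ | ⟨a, ha, b, hb, h3⟩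
        · exact Or.inl h3
        · refine Or.inr (Or.inl ⟨s + a, by omega, s + b, by omega, ?_⟩)
          rw [e2 a (ha.trans hm), e2 b (hb.trans hm), h3]
        · refine Or.inr (Or.inr ⟨s + a, by omega, s + b, by omega, ?_⟩)
          rw [e2 a (ha.trans hm), e2 b (hb.trans hm), h3]
      · simp only
        rw [if_neg h1, if_neg h2]
        rcases hU with hU | hU
        · refine Or.inr (Or.inl ⟨i, by omega, s + i', by omega, ?_⟩)
          rw [e1 i hi, e2 i' hi', hT, hT', hU]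
        · refine Or.inr (Or.inr ⟨i, by omega, s + i', by omega, ?_⟩)
          rw [e1 i hi, e2 i' hi', hT, hT', hU]
  · simp only
    rw [if_neg (by omega), if_neg (by omega)]

/-- a set with `m + 1` elements needs at most `2 m + 1` gates -/
theorem comp_image (f : ℕ → ℤ) (m : ℕ) : Comp (2 * m + 1) ((range (m + 1)).image f) := by
  induction m with
  | zero =>
    have := comp_single (f 0)
    simpa using this
  | succ m ih =>
    have h1 := comp_join ih (comp_single (f (m + 1))) (Or.inl rfl)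
    have h2 : (range (m + 1 + 1)).image f = (range (m + 1)).image f ∪ {f (m + 1)} := by
      rw [Finset.range_add_one (n := m + 1), Finset.image_insert, Finset.insert_eq,
        Finset.union_comm]
    rw [h2]
    have h3 : 2 * (m + 1) + 1 = 2 * m + 1 + 1 + 1 := by ring
    rw [h3]
    exact h1

/-! ### The Sidon set -/

/-- the map `j ↦ 2 p j + (j ^ 2 mod p)` -/
def e (p j : ℕ) : ℕ := 2 * p * j + j ^ 2 % p

theorem e_lt {p j : ℕ} (hj : j < p) : 2 * e p j < 4 * p ^ 2 := by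
  have h1 : j ^ 2 % p < p := Nat.mod_lt _ (by omega)
  have h2 : 2 * p * (j + 1) ≤ 2 * p * p := Nat.mul_le_mul_left _ hj
  unfold e
  nlinarith

theorem sidon_pair {q : ℕ} (hp : q.Prime) {u v u' v' : ℕ} (hu : u < q) (hv : v < q)
    (hu' : u' < q) (hv' : v' < q) (hs : u + v = u' + v')
    (ht : u ^ 2 % q + v ^ 2 % q = u' ^ 2 % q + v' ^ 2 % q) :
    (u' = u ∧ v' = v) ∨ (u' = v ∧ v' = u) := by
  rcases hp.eq_two_or_odd' with rfl | hodd
  · omega
  have hq2 : 2 < q := by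
    have := hp.two_le
    rcases hodd with ⟨m, hm⟩
    omega
  have dvd_imp : ∀ {a b : ℕ}, a < q → b < q → (q : ℤ) ∣ (a : ℤ) - b → a = b := by
    intro a b ha hb h
    have h1 : (a : ℤ) - b = 0 := by
      apply Int.eq_zero_of_abs_lt_dvd h
      rw [abs_lt]
      constructor <;> omega
    omega
  have h1 : u ^ 2 + v ^ 2 ≡ u' ^ 2 + v' ^ 2 [MOD q] := by
    have e1 : u ^ 2 % q + v ^ 2 % q ≡ u ^ 2 + v ^ 2 [MOD q] :=
      Nat.ModEq.add (Nat.mod_modEq _ _) (Nat.mod_modEq _ _)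
    have e2 : u' ^ 2 % q + v' ^ 2 % q ≡ u' ^ 2 + v' ^ 2 [MOD q] :=
      Nat.ModEq.add (Nat.mod_modEq _ _) (Nat.mod_modEq _ _)
    rw [ht] at e1
    exact e1.symm.trans e2
  have h2 : (q : ℤ) ∣ ((u' ^ 2 + v' ^ 2 : ℕ) : ℤ) - ((u ^ 2 + v ^ 2 : ℕ) : ℤ) :=
    (Nat.modEq_iff_dvd).1 h1
  have hs' : (u : ℤ) + v = u' + v' := by exact_mod_cast hs
  have hv'' : (v' : ℤ) = u + v - u' := by linarith
  have h3 : (((u' ^ 2 + v' ^ 2 : ℕ) : ℤ) - ((u ^ 2 + v ^ 2 : ℕ) : ℤ)) =
      2 * (((u' : ℤ) - u) * ((u' : ℤ) - v)) := by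
    push_cast
    rw [hv'']
    ring
  rw [h3] at h2
  have hpZ : Prime (q : ℤ) := Nat.prime_iff_prime_int.1 hp
  rcases hpZ.dvd_or_dvd h2 with h4 | h4
  · exfalso
    have h5 : (q : ℤ) ≤ 2 := Int.le_of_dvd (by norm_num) h4
    omega
  · rcases hpZ.dvd_or_dvd h4 with h5 | h5
    · have h6 := dvd_imp hu' hu h5
      exact Or.inl ⟨h6, by omega⟩
    · have h6 := dvd_imp hu' hv h5
      exact Or.inr ⟨h6, by omega⟩

theorem e_digits {p u : ℕ} (hu : u < p) : e p u % (2 * p) = u ^ 2 % p ∧ e p u / (2 * p) = u := by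
  have h1 : u ^ 2 % p < p := Nat.mod_lt _ (by omega)
  unfold e
  constructor
  · rw [Nat.mul_add_mod, Nat.mod_eq_of_lt (by omega)]
  · rw [Nat.mul_add_div (by omega), Nat.div_eq_of_lt (by omega), add_zero]

theorem e_inj {p u v : ℕ} (hu : u < p) (hv : v < p) (h : e p u = e p v) : u = v := by
  rw [← (e_digits hu).2, ← (e_digits hv).2, h]

theorem e_sidon {p : ℕ} (hp : p.Prime) {u v u' v' : ℕ} (hu : u < p) (hv : v < p)
    (hu' : u' < p) (hv' : v' < p) (hs : e p u + e p v = e p u' + e p v') :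
    (u' = u ∧ v' = v) ∨ (u' = v ∧ v' = u) := by
  have m1 : u ^ 2 % p < p := Nat.mod_lt _ (by omega)
  have m2 : v ^ 2 % p < p := Nat.mod_lt _ (by omega)
  have m3 : u' ^ 2 % p < p := Nat.mod_lt _ (by omega)
  have m4 : v' ^ 2 % p < p := Nat.mod_lt _ (by omega)
  have h1 : 2 * p * (u + v) + (u ^ 2 % p + v ^ 2 % p) =
      2 * p * (u' + v') + (u' ^ 2 % p + v' ^ 2 % p) := by
    unfold e at hs
    rw [mul_add, mul_add]
    omega
  have h2 : u + v = u' + v' := by
    have h3 := congrArg (· / (2 * p)) h1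
    rw [Nat.mul_add_div (by omega), Nat.mul_add_div (by omega), Nat.div_eq_of_lt (by omega),
      Nat.div_eq_of_lt (by omega)] at h3
    simpa using h3
  refine sidon_pair hp hu hv hu' hv' h2 ?_
  rw [h2] at h1
  omega

/-! ### Representations -/

/-- number of representations of `n` as an ordered sum of two elements of `S` -/
def rp (S : Finset ℕ) (n : ℕ) : ℕ := ((S ×ˢ S).filter fun x => x.1 + x.2 = n).card

/-- the Sidon set -/
def E (p : ℕ) : Finset ℕ := (range p).image (e p)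

theorem rp_E {p : ℕ} (hp : p.Prime) (n : ℕ) : rp (E p) n ≤ 2 := by
  unfold rp
  rcases (((E p) ×ˢ (E p)).filter fun x => x.1 + x.2 = n).eq_empty_or_nonempty with h0 | hne
  · rw [h0]
    simp
  obtain ⟨⟨x, y⟩, hxy⟩ := hne
  have hsub : (((E p) ×ˢ (E p)).filter fun x => x.1 + x.2 = n) ⊆ {(x, y), (y, x)} := by
    rintro ⟨x', y'⟩ hxy'
    rw [mem_filter, mem_product] at hxy hxy'
    obtain ⟨⟨hx, hy⟩, hN⟩ := hxy
    obtain ⟨⟨hx', hy'⟩, hN'⟩ := hxy'
    simp only [E, mem_image, mem_range] at hx hy hN hx' hy' hN'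
    obtain ⟨u, hu, rfl⟩ := hx
    obtain ⟨v, hv, rfl⟩ := hy
    obtain ⟨u', hu', rfl⟩ := hx'
    obtain ⟨v', hv', rfl⟩ := hy'
    rw [mem_insert, mem_singleton]
    rcases e_sidon hp hu hv hu' hv' (hN.trans hN'.symm) with ⟨rfl, rfl⟩ | ⟨rfl, rfl⟩
    · exact Or.inl rfl
    · exact Or.inr rfl
  exact (card_le_card hsub).trans card_le_two

/-- numbers with `k` digits in `E p` to the base `4 p ^ 2` -/
def B (p : ℕ) : ℕ → Finset ℕ
  | 0 => {0}
  | k + 1 => (B p k ×ˢ E p).image fun x => x.1 + (4 * p ^ 2) ^ k * x.2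

theorem E_lt {p a : ℕ} (ha : a ∈ E p) : 2 * a < 4 * p ^ 2 := by
  simp only [E, mem_image, mem_range] at ha
  obtain ⟨u, hu, rfl⟩ := ha
  exact e_lt hu

theorem B_lt {p k a : ℕ} (ha : a ∈ B p k) : 2 * a < (4 * p ^ 2) ^ k := by
  induction k generalizing a with
  | zero =>
    simp only [B, mem_singleton] at ha
    simp [ha]
  | succ k ih =>
    simp only [B, mem_image, mem_product] at ha
    obtain ⟨⟨y, x⟩, ⟨hy, hx⟩, rfl⟩ := ha
    have h1 := ih hy
    have h2 := E_lt hx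
    simp only at h1 h2 ⊢
    have h3 : (4 * p ^ 2) ^ k * (2 * x + 1) ≤ (4 * p ^ 2) ^ k * (4 * p ^ 2) :=
      Nat.mul_le_mul_left _ h2
    rw [pow_succ]
    calc 2 * (y + (4 * p ^ 2) ^ k * x) = 2 * y + (4 * p ^ 2) ^ k * (2 * x) := by ring
      _ < (4 * p ^ 2) ^ k + (4 * p ^ 2) ^ k * (2 * x) := Nat.add_lt_add_right h1 _
      _ = (4 * p ^ 2) ^ k * (2 * x + 1) := by ring
      _ ≤ _ := h3

theorem digits {b y x y' x' : ℕ} (hy : y < b) (hy' : y' < b) (h : y + b * x = y' + b * x') :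
    y = y' ∧ x = x' := by
  have h1 := congrArg (· % b) h
  have h2 := congrArg (· / b) h
  simp only [Nat.add_mul_mod_self_left, Nat.mod_eq_of_lt hy, Nat.mod_eq_of_lt hy'] at h1
  rw [Nat.add_mul_div_left _ _ (by omega), Nat.add_mul_div_left _ _ (by omega),
    Nat.div_eq_of_lt hy, Nat.div_eq_of_lt hy', zero_add, zero_add] at h2
  exact ⟨h1, h2⟩

theorem card_E (p : ℕ) : (E p).card = p := by
  unfold E
  rw [card_image_of_injOn, card_range]
  intro u hu v hv huv
  rw [mem_coe, mem_range] at hu hv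
  exact e_inj hu hv huv

theorem card_B (p k : ℕ) : (B p k).card = p ^ k := by
  induction k with
  | zero => simp [B]
  | succ k ih =>
    simp only [B]
    rw [card_image_of_injOn, card_product, ih, card_E, pow_succ]
    rintro ⟨y, x⟩ h ⟨y', x'⟩ h' heq
    rw [mem_coe, mem_product] at h h'
    have h1 := B_lt h.1
    have h2 := B_lt h'.1
    simp only at h1 h2 heq
    obtain ⟨h3, h4⟩ := digits (b := (4 * p ^ 2) ^ k) (by omega) (by omega) heq
    rw [h3, h4]

theorem rp_B {p : ℕ} (hp : p.Prime) (k n : ℕ) : rp (B p k) n ≤ 2 ^ k := by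
  induction k generalizing n with
  | zero =>
    unfold rp
    refine (card_filter_le _ _).trans ?_
    simp [B]
  | succ k ih =>
    have hb : 0 < (4 * p ^ 2) ^ k := by
      have := hp.pos
      positivity
    have hsub : ((B p (k + 1) ×ˢ B p (k + 1)).filter fun x => x.1 + x.2 = n) ⊆
        (((B p k ×ˢ B p k).filter fun x => x.1 + x.2 = n % (4 * p ^ 2) ^ k) ×ˢ
          ((E p ×ˢ E p).filter fun x => x.1 + x.2 = n / (4 * p ^ 2) ^ k)).image
          fun z => (z.1.1 + (4 * p ^ 2) ^ k * z.2.1, z.1.2 + (4 * p ^ 2) ^ k * z.2.2) := by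
      rintro ⟨z, z'⟩ hz
      simp only [mem_filter, mem_product, B, mem_image] at hz
      obtain ⟨⟨⟨⟨y, x⟩, ⟨hy, hx⟩, rfl⟩, ⟨⟨y', x'⟩, ⟨hy', hx'⟩, rfl⟩⟩, hn⟩ := hz
      simp only at hy hx hy' hx' hn
      have h1 := B_lt hy
      have h2 := B_lt hy'
      have h3 : n = (y + y') + (4 * p ^ 2) ^ k * (x + x') := by
        rw [← hn]
        ring
      have h4 : n % (4 * p ^ 2) ^ k = y + y' := by
        rw [h3, Nat.add_mul_mod_self_left, Nat.mod_eq_of_lt (by omega)]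
      have h5 : n / (4 * p ^ 2) ^ k = x + x' := by
        rw [h3, Nat.add_mul_div_left _ _ hb, Nat.div_eq_of_lt (by omega), zero_add]
      simp only [mem_image, mem_product, mem_filter]
      exact ⟨((y, y'), (x, x')), ⟨⟨⟨hy, hy'⟩, h4.symm⟩, ⟨hx, hx'⟩, h5.symm⟩, rfl⟩
    unfold rp
    refine (card_le_card hsub).trans (card_image_le.trans ?_)
    rw [card_product, pow_succ]
    exact Nat.mul_le_mul (ih _) (rp_E hp _)

theorem rep_eq (S : Finset ℕ) (n : ℕ) : rep (S : Set ℕ) n = rp S n := by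
  unfold rep rp
  rw [← Set.ncard_coe_finset]
  congr 1
  ext x
  simp only [Set.mem_ofPred_eq, mem_coe, coe_filter, mem_product, and_assoc]

/-! ### The circuit -/

/-- the set `B p k` as a set of integers -/
def BZ (p k : ℕ) : Finset ℤ := (B p k).image (fun a : ℕ => (a : ℤ))

theorem mem_BZ {p k a : ℕ} : (a : ℤ) ∈ BZ p k ↔ a ∈ B p k := by
  simp [BZ]

theorem BZ_zero (p : ℕ) : BZ p 0 = {0} := by
  simp [BZ, B]

theorem BZ_succ (p k : ℕ) : BZ p (k + 1) =
    BZ p k + (range p).image fun j : ℕ => ((4 * p ^ 2) ^ k * e p j : ℤ) := by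
  ext z
  simp only [BZ, B, E, mem_image, mem_product, mem_add, mem_range]
  constructor
  · rintro ⟨a, ⟨⟨y, x⟩, ⟨hy, u, hu, rfl⟩, rfl⟩, rfl⟩
    exact ⟨(y : ℤ), ⟨y, hy, rfl⟩, _, ⟨u, hu, rfl⟩, by push_cast; rfl⟩
  · rintro ⟨_, ⟨y, hy, rfl⟩, _, ⟨u, hu, rfl⟩, rfl⟩
    exact ⟨_, ⟨⟨y, e p u⟩, ⟨hy, u, hu, rfl⟩, rfl⟩, by push_cast; rfl⟩

theorem comp_B {p : ℕ} (hp : 0 < p) (k : ℕ) : Comp (2 * k * p + 1) (BZ p k) := by
  induction k with
  | zero =>
    rw [BZ_zero]
    simpa using comp_single 0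
  | succ k ih =>
    obtain ⟨m, rfl⟩ : ∃ m, p = m + 1 := ⟨p - 1, by omega⟩
    have h1 := comp_image (fun j : ℕ => ((4 * (m + 1 : ℕ) ^ 2) ^ k * e (m + 1) j : ℤ)) m
    have h2 := comp_join ih h1 (Or.inr rfl)
    rw [BZ_succ]
    have h3 : 2 * (k + 1) * (m + 1) + 1 = 2 * k * (m + 1) + 1 + (2 * m + 1) + 1 := by ring
    rw [h3]
    exact h2

/-- **Sharpness.**  A product of `k` Sidon sets with `p` elements. -/
theorem sharp (k p : ℕ) (hp : p.Prime) : ∃ s : ℕ, ∃ S : ℕ → Finset ℤ, ∃ i : ℕ,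
    s ≤ 2 * k * p + 1 ∧ IsCircuit s S ∧ i < s ∧ (S i).card = p ^ k ∧
    (∀ z ∈ S i, 0 ≤ z ∧ z < (4 * (p : ℤ) ^ 2) ^ k) ∧
    ∀ n : ℕ, rep {a : ℕ | (a : ℤ) ∈ S i} n ≤ 2 ^ k := by
  obtain ⟨S, i, hS, hi, hT⟩ := comp_B hp.pos k
  refine ⟨2 * k * p + 1, S, i, le_rfl, hS, hi, ?_, ?_, ?_⟩
  · rw [hT, BZ, card_image_of_injective _ Nat.cast_injective, card_B]
  · intro z hz
    rw [hT] at hz
    simp only [BZ, mem_image] at hz
    obtain ⟨a, ha, rfl⟩ := hz
    have h1 := B_lt ha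
    have h2 : a < (4 * p ^ 2) ^ k := by omega
    exact ⟨Int.natCast_nonneg a, by exact_mod_cast h2⟩
  · intro n
    have h1 : {a : ℕ | (a : ℤ) ∈ S i} = ((B p k : Finset ℕ) : Set ℕ) := by
      ext a
      rw [Set.mem_ofPred_eq, hT, mem_BZ, mem_coe]
    rw [h1, rep_eq]
    exact rp_B hp k n

end Pool.Agent.Helper47.CF
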